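import Pool.Agent.Helper69.LT.St
import Pool.Agent.Helper84.LE.BKP

/-! # Project LT (MP_65faa7): mass of one level -/

set_option autoImplicit false

open scoped BigOperators ENNReal
open Pool.LE Pool.NL

namespace Pool.LT

namespace MassM

theorem q_kp {V : Type} [DecidableEq V] {T K q : V → V → ENNReal}
    (hq : ∀ x y z, q x z ≤ q x y * q y z) (hK : ∀ x y, q x y * T x y ≤ K x y) (n : ℕ) :
    ∀ x y, q x y * kp T (n + 1) x y ≤ kp K (n + 1) x y := by
  induction n with
  | zero => intro x y; rw [zero_add, kp_one, kp_one]; exact hK x y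
  | succ n ih =>
    intro x y
    show q x y * (∑' z, T x z * kp T (n + 1) z y) ≤ ∑' z, K x z * kp K (n + 1) z y
    rw [← ENNReal.tsum_mul_left]
    refine ENNReal.tsum_le_tsum fun z => ?_
    calc q x y * (T x z * kp T (n + 1) z y) ≤ (q x z * q z y) * (T x z * kp T (n + 1) z y) :=
          mul_le_mul' (hq x z y) le_rfl
      _ = (q x z * T x z) * (q z y * kp T (n + 1) z y) := by ring
      _ ≤ K x z * kp K (n + 1) z y := mul_le_mul' (hK x z) (ih z y)

/-- the sum over `w` -/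
theorem mass1 {V : Type} [DecidableEq V] {T : V → V → ENNReal}
    (h : ∀ x, 1 ≤ T x x) (v s u : V) :
    ∑' w : V, core0 T v s u w ≤
      5 * ∑' t : V, ∑' w' : V, cmL (kp T 2) [(v, [t, w'], s), (t, [u], w')] := by
  unfold core0 coreR
  rw [ENNReal.tsum_comm, ← ENNReal.tsum_mul_left]
  refine ENNReal.tsum_le_tsum fun t => ?_
  rw [ENNReal.tsum_comm, ← ENNReal.tsum_mul_left]
  refine ENNReal.tsum_le_tsum fun w' => ?_
  have h1 := free h [(v, [t, w'], s), (t, [u], w')]
  have h2 : (([(v, [t, w'], s), (t, [u], w')] : List (V × List V × V)).map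
      (fun c => c.2.1.length + 1)).sum = 5 := by simp
  rw [h2, ← kp_two] at h1
  exact h1

end MassM

open MassM in
theorem hMass : SMass := by
  intro V _ T K q B hW v s
  have hKK : ∀ x, 1 ≤ K x x := fun x => by
    calc (1 : ENNReal) = 1 * 1 := (one_mul _).symm
      _ ≤ q x x * T x x := mul_le_mul' (hW.one_le_q x x) (hW.one_le_T x)
      _ ≤ K x x := hW.le_K x x
  have hTK : ∀ x y, T x y ≤ K x y := fun x y => by
    calc T x y = 1 * T x y := (one_mul _).symm
      _ ≤ q x y * T x y := mul_le_mul' (hW.one_le_q x y) le_rfl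
      _ ≤ K x y := hW.le_K x y
  have hB4 : ∀ x y, kp K 4 x y ≤ B := fun x y =>
    (kp_le_kp hKK (by norm_num) x y).trans (hW.le_B x y)
  have hq2 : ∀ x y, q x y * kp T 2 x y ≤ kp K 2 x y := q_kp hW.q_mul hW.le_K 1
  have hT2 : ∀ x y, kp T 2 x y ≤ kp K 2 x y := kp_mono hTK 2
  set T2 := kp T 2 with hT2def
  set K2 := kp K 2 with hK2def
  have e4 : kc K2 K2 = kp K 4 := by rw [← kp_two, hK2def, kp_mul]
  have e6 : kc K2 (kc K2 K2) = kp K 6 := by
    rw [e4, hK2def, ← kp_add]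
  have main : ∀ u, ∑' w : V, q v u * core0 T v s u w ≤
      ∑' t : V, ∑' w' : V, 5 *
        ((q v t * cm T2 (v, [t, w'], s)) * (K2 t u * K2 u w')) := by
    intro u
    rw [ENNReal.tsum_mul_left]
    refine (mul_le_mul' le_rfl (mass1 hW.one_le_T v s u)).trans ?_
    rw [← mul_assoc, ← ENNReal.tsum_mul_left]
    refine ENNReal.tsum_le_tsum fun t => ?_
    rw [← ENNReal.tsum_mul_left]
    refine ENNReal.tsum_le_tsum fun w' => ?_
    have e1 : cmL (kp T 2) [(v, [t, w'], s), (t, [u], w')] =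
        cm T2 (v, [t, w'], s) * (T2 t u * T2 u w') := by
      rw [cmL_cons, cmL_cons, cm_one]
      simp [cmL, hT2def]
    rw [e1]
    calc q v u * 5 * (cm T2 (v, [t, w'], s) * (T2 t u * T2 u w'))
        ≤ (q v t * q t u) * 5 * (cm T2 (v, [t, w'], s) * (T2 t u * T2 u w')) :=
          mul_le_mul' (mul_le_mul' (hW.q_mul v t u) le_rfl) le_rfl
      _ = 5 * ((q v t * cm T2 (v, [t, w'], s)) * ((q t u * T2 t u) * T2 u w')) := by ring
      _ ≤ 5 * ((q v t * cm T2 (v, [t, w'], s)) * (K2 t u * K2 u w')) :=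
          mul_le_mul' le_rfl (mul_le_mul' le_rfl (mul_le_mul' (hq2 t u) (hT2 u w')))
  refine (ENNReal.tsum_le_tsum main).trans ?_
  rw [ENNReal.tsum_comm]
  have inner : ∀ t : V, ∑' u : V, ∑' w' : V, 5 *
        ((q v t * cm T2 (v, [t, w'], s)) * (K2 t u * K2 u w')) ≤
      ∑' w' : V, 5 * (B * (K2 v t * (K2 t w' * K2 w' s) + K2 v w' * (K2 w' t * K2 t s))) := by
    intro t
    rw [ENNReal.tsum_comm]
    refine ENNReal.tsum_le_tsum fun w' => ?_
    rw [ENNReal.tsum_mul_left, ENNReal.tsum_mul_left]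
    refine mul_le_mul' le_rfl ?_
    rw [mul_comm B]
    refine mul_le_mul' ?_ ?_
    · rw [cm_two, mul_add]
      refine add_le_add ?_ ?_
      · calc q v t * (T2 v t * T2 t w' * T2 w' s) = (q v t * T2 v t) * (T2 t w' * T2 w' s) := by ring
          _ ≤ K2 v t * (K2 t w' * K2 w' s) :=
            mul_le_mul' (hq2 v t) (mul_le_mul' (hT2 _ _) (hT2 _ _))
      · calc q v t * (T2 v w' * T2 w' t * T2 t s)
            ≤ (q v w' * q w' t) * (T2 v w' * T2 w' t * T2 t s) :=
              mul_le_mul' (hW.q_mul v w' t) le_rfl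
          _ = (q v w' * T2 v w') * ((q w' t * T2 w' t) * T2 t s) := by ring
          _ ≤ K2 v w' * (K2 w' t * K2 t s) :=
            mul_le_mul' (hq2 _ _) (mul_le_mul' (hq2 _ _) (hT2 _ _))
    · have : (∑' u : V, K2 t u * K2 u w') = kp K 4 t w' := by rw [← e4]; rfl
      rw [this]
      exact hB4 _ _
  refine (ENNReal.tsum_le_tsum inner).trans ?_
  have e1 : ∀ t : V, (∑' w' : V, 5 * (B * (K2 v t * (K2 t w' * K2 w' s) +
      K2 v w' * (K2 w' t * K2 t s)))) =
      5 * (B * ((K2 v t * kc K2 K2 t s) + (kc K2 K2 v t * K2 t s))) := by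
    intro t
    have h1 : (∑' w' : V, K2 v w' * (K2 w' t * K2 t s)) = kc K2 K2 v t * K2 t s := by
      have : ∀ w' : V, K2 v w' * (K2 w' t * K2 t s) = (K2 v w' * K2 w' t) * K2 t s :=
        fun w' => by ring
      rw [tsum_congr this, ENNReal.tsum_mul_right]
      rfl
    rw [ENNReal.tsum_mul_left, ENNReal.tsum_mul_left, ENNReal.tsum_add, ENNReal.tsum_mul_left, h1]
    rfl
  rw [tsum_congr e1, ENNReal.tsum_mul_left, ENNReal.tsum_mul_left, ENNReal.tsum_add]
  have e2 : (∑' t : V, K2 v t * kc K2 K2 t s) = kp K 6 v s := by rw [← e6]; rfl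
  have e3 : (∑' t : V, kc K2 K2 v t * K2 t s) = kp K 6 v s := by
    rw [← e6, ← kc_assoc]; rfl
  rw [e2, e3]
  calc 5 * (B * (kp K 6 v s + kp K 6 v s)) = 10 * B * kp K 6 v s := by ring
    _ ≤ 10 * B * kp K 24 v s := mul_le_mul' le_rfl (kp_le_kp hKK (by norm_num) v s)

end Pool.LT
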